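import Pool.Agent.H798.BV.Stm6

set_option autoImplicit false

/-!
# S_SB (task of helper798): basic bounds for small `a`
-/

namespace Pool.Agent.H981.BV

open Pool.Agent.H798.BV

theorem t_SB : S_SB := by
  intro m l a hm hH
  obtain ⟨ha, ha2, hk, hlow, hs, -⟩ := hH
  have hm0 : (0 : ℝ) < m := by exact_mod_cast hm
  set B : Finset (Fin m) := Finset.univ.filter (fun k => 4 < ‖l k‖) with hB
  set B' : Finset (Fin m) := Finset.univ.filter (fun k => ¬ 4 < ‖l k‖) with hB'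
  have hsplit : ∀ f : Fin m → ℝ, ∑ k ∈ B, f k + ∑ k ∈ B', f k = ∑ k, f k := fun f =>
    Finset.sum_filter_add_sum_filter_not _ _ _
  have hcard : (B.card : ℝ) + (B'.card : ℝ) = m := by
    have h := hsplit (fun _ => 1)
    simpa using h
  have hb0 : 0 ≤ ∑ k ∈ B, ‖l k‖ := Finset.sum_nonneg fun k _ => norm_nonneg _
  have hbm := hsplit (fun k => ‖l k‖)
  -- the number of big terms
  have hBcard : (B.card : ℝ) * 4 ≤ ∑ k ∈ B, ‖l k‖ := by
    rw [← nsmul_eq_mul]
    refine Finset.card_nsmul_le_sum _ _ _ fun k hk => ?_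
    exact ((Finset.mem_filter.1 hk).2).le
  have hone : ∀ k, 1 - a * (l k).re ≤ ‖1 - (a : ℂ) * l k‖ := by
    intro k
    have h2 := Complex.re_le_norm (1 - (a : ℂ) * l k)
    have h3 : (1 - (a : ℂ) * l k).re = 1 - a * (l k).re := by simp
    rwa [h3] at h2
  -- real parts of the sums
  set X : ℝ := ∑ k ∈ B', (l k).re with hX
  have e2 : (B'.card : ℝ) - a * X ≤ ∑ k ∈ B', ‖l k‖ := by
    have h1 : ∑ k ∈ B', (1 - a * (l k).re) ≤ ∑ k ∈ B', ‖l k‖ :=
      Finset.sum_le_sum fun k _ => (hone k).trans (hk k)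
    rw [Finset.sum_sub_distrib, ← Finset.mul_sum] at h1
    simpa using h1
  have e3 : ∑ k ∈ B, ‖l k‖ ≤ 4 / 3 * (a * X) := by
    nlinarith
  have hX0 : 0 ≤ X := by
    have h1 : 0 ≤ a * X := by nlinarith
    exact (mul_nonneg_iff_of_pos_left ha).1 h1
  have haX : a * X ≤ 1 / 2 * X := mul_le_mul_of_nonneg_right ha2 hX0
  have hsre : (sR 4 l).re = X / m := by
    show ((∑ k ∈ B', l k) / (m : ℂ)).re = _
    rw [← Complex.ofReal_natCast, Complex.div_ofReal_re, Complex.re_sum]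
  have hbdef : bB 4 l = (∑ k ∈ B, ‖l k‖) / m := rfl
  have hXs : X ≤ m * ‖sR 4 l‖ := by
    have h1 := Complex.re_le_norm (sR 4 l)
    rw [hsre, div_le_iff₀ hm0] at h1
    linarith
  -- the sum of the `q_k`
  have hre : ∑ k, (l k).re ≤ X + ∑ k ∈ B, ‖l k‖ := by
    have h1 := hsplit (fun k => (l k).re)
    have h2 : ∑ k ∈ B, (l k).re ≤ ∑ k ∈ B, ‖l k‖ := Finset.sum_le_sum fun k _ => Complex.re_le_norm _
    linarith
  have hq : ∑ k, (‖l k‖ - (1 - a * (l k).re)) ≤ a * (X + ∑ k ∈ B, ‖l k‖) := by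
    have h1 : ∑ k, (‖l k‖ - (1 - a * (l k).re)) = ∑ k, ‖l k‖ - m + a * ∑ k, (l k).re := by
      rw [Finset.sum_sub_distrib, Finset.sum_sub_distrib, ← Finset.mul_sum]
      simp
      ring
    have h2 := mul_le_mul_of_nonneg_left hre ha.le
    linarith
  refine ⟨?_, ?_, ?_⟩
  · rw [hbdef, hsre]
    have h1 : 4 / 3 * a * (X / m) = (4 / 3 * (a * X)) / m := by ring
    rw [h1]
    exact div_le_div_of_nonneg_right e3 hm0.le
  · have h1 : ∑ k, (‖l k‖ - ‖1 - (a : ℂ) * l k‖) ≤ ∑ k, (‖l k‖ - (1 - a * (l k).re)) :=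
      Finset.sum_le_sum fun k _ => by linarith [hone k]
    have h2 : X + ∑ k ∈ B, ‖l k‖ ≤ 2 * (m * ‖sR 4 l‖) := by linarith
    have h3 := mul_le_mul_of_nonneg_left h2 ha.le
    have h4 : a * (2 * (m * ‖sR 4 l‖)) = 2 * a * m * ‖sR 4 l‖ := by ring
    linarith
  · intro hY
    -- the imaginary parts
    have hqy : ∀ k ∈ B', a ^ 2 * (l k).im ^ 2 / 8 ≤ ‖l k‖ - (1 - a * (l k).re) := by
      intro k hkB
      have h4 : ‖l k‖ ≤ 4 := not_lt.1 (Finset.mem_filter.1 hkB).2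
      have h1 := (hone k).trans (hk k)
      have h2 : (1 - a * (l k).re) ^ 2 + a ^ 2 * (l k).im ^ 2 ≤ ‖l k‖ ^ 2 := by
        have h3 : ‖1 - (a : ℂ) * l k‖ ^ 2 ≤ ‖l k‖ ^ 2 := pow_le_pow_left₀ (norm_nonneg _) (hk k) 2
        have h5 : ‖1 - (a : ℂ) * l k‖ ^ 2 = (1 - a * (l k).re) ^ 2 + a ^ 2 * (l k).im ^ 2 := by
          rw [← Complex.normSq_eq_norm_sq, Complex.normSq_apply]
          simp
          ring
        linarith
      have h6 : (‖l k‖ - (1 - a * (l k).re)) * (‖l k‖ + (1 - a * (l k).re)) ≤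
          (‖l k‖ - (1 - a * (l k).re)) * 8 :=
        mul_le_mul_of_nonneg_left (by linarith) (by linarith)
      nlinarith
    have hqS : ∑ k ∈ B', a ^ 2 * (l k).im ^ 2 / 8 ≤ a * (X + ∑ k ∈ B, ‖l k‖) := by
      have h1 := Finset.sum_le_sum hqy
      have h2 := hsplit (fun k => ‖l k‖ - (1 - a * (l k).re))
      have h3 : 0 ≤ ∑ k ∈ B, (‖l k‖ - (1 - a * (l k).re)) :=
        Finset.sum_nonneg fun k _ => by linarith [hone k, hk k]
      linarith
    have hqS' : a ^ 2 / 8 * ∑ k ∈ B', (l k).im ^ 2 ≤ a * (X + ∑ k ∈ B, ‖l k‖) := by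
      have h1 : ∑ k ∈ B', a ^ 2 * (l k).im ^ 2 / 8 = a ^ 2 / 8 * ∑ k ∈ B', (l k).im ^ 2 := by
        rw [Finset.mul_sum]
        refine Finset.sum_congr rfl fun k _ => ?_
        ring
      linarith
    -- the second moment
    have hyre : (∑ k ∈ B', ((l k).re ^ 2 - (l k).im ^ 2)) ≤ m / 320 := by
      have h1 : (∑ k ∈ B', ((l k).re ^ 2 - (l k).im ^ 2)) = (∑ k ∈ B', l k ^ 2).re := by
        rw [Complex.re_sum]
        refine Finset.sum_congr rfl fun k _ => ?_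
        rw [pow_two (l k), Complex.mul_re]
        ring
      have h2 := Complex.re_le_norm (yR 4 l)
      have h3 : (yR 4 l).re = (∑ k ∈ B', l k ^ 2).re / m := by
        show ((∑ k ∈ B', l k ^ 2) / (m : ℂ)).re = _
        rw [← Complex.ofReal_natCast, Complex.div_ofReal_re]
      rw [h3, div_le_iff₀ hm0] at h2
      rw [h1]
      have h4 := mul_le_mul_of_nonneg_right hY hm0.le
      linarith
    have hlow2 : (B'.card : ℝ) / 4 ≤ ∑ k ∈ B', ((l k).re ^ 2 + (l k).im ^ 2) := by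
      have h1 : (B'.card : ℝ) * (1 / 4) ≤ ∑ k ∈ B', ((l k).re ^ 2 + (l k).im ^ 2) := by
        rw [← nsmul_eq_mul]
        refine Finset.card_nsmul_le_sum _ _ _ fun k _ => ?_
        have h2 : (l k).re ^ 2 + (l k).im ^ 2 = ‖l k‖ ^ 2 := by
          rw [← Complex.normSq_eq_norm_sq, Complex.normSq_apply]
          ring
        rw [h2]
        have h3 := hlow k
        nlinarith
      linarith
    have hys : (B'.card : ℝ) / 4 - m / 320 ≤ 2 * ∑ k ∈ B', (l k).im ^ 2 := by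
      have h1 : ∑ k ∈ B', ((l k).re ^ 2 + (l k).im ^ 2) - ∑ k ∈ B', ((l k).re ^ 2 - (l k).im ^ 2) =
          2 * ∑ k ∈ B', (l k).im ^ 2 := by
        rw [← Finset.sum_sub_distrib, Finset.mul_sum]
        refine Finset.sum_congr rfl fun k _ => ?_
        ring
      linarith
    -- conclusion
    have hc : m - a * X / 3 ≤ (B'.card : ℝ) := by linarith
    have hI : m * (79 / 640) - a * X / 24 ≤ ∑ k ∈ B', (l k).im ^ 2 := by linarith
    have h1 : a ^ 2 / 8 * (m * (79 / 640) - a * X / 24) ≤ a * (X + ∑ k ∈ B, ‖l k‖) :=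
      (mul_le_mul_of_nonneg_left hI (by positivity)).trans hqS'
    have h2 : X + ∑ k ∈ B, ‖l k‖ ≤ 5 / 3 * X := by linarith
    have h3 : a ^ 2 / 8 * (m * (79 / 640) - a * X / 24) ≤ a * (5 / 3 * X) :=
      h1.trans (mul_le_mul_of_nonneg_left h2 ha.le)
    have h4 : a / 8 * (m * (79 / 640) - a * X / 24) ≤ 5 / 3 * X := by
      have h5 : a * (a / 8 * (m * (79 / 640) - a * X / 24)) ≤ a * (5 / 3 * X) := by
        have h6 : a * (a / 8 * (m * (79 / 640) - a * X / 24)) =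
            a ^ 2 / 8 * (m * (79 / 640) - a * X / 24) := by ring
        linarith
      exact le_of_mul_le_mul_left h5 ha
    have h7 : a * (a * X) ≤ 1 / 4 * X := by nlinarith
    rw [hsre, le_div_iff₀ hm0]
    nlinarith
end Pool.Agent.H981.BV
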